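import Pool.Agent.R537.TE.Stm

/-!
Project TE, piece FIN: the least distortion is finite.
-/

set_option autoImplicit false

namespace Pool.Agent.R422TE

open scoped ENNReal
open Real
open Pool.Agent.R537.TE

/-- the weight -/
noncomputable def zz (m : ℕ) (c : Fin m → ℤ) : ℝ :=
  ∑ i, ((if c = Pi.single i 1 then ((m : ℝ) + 1) else 0) +
    (if c = -Pi.single i 1 then ((m : ℝ) + 1) else 0))

lemma zz_nonneg (m : ℕ) (c : Fin m → ℤ) : 0 ≤ zz m c := by
  unfold zz
  refine Finset.sum_nonneg fun i _ => ?_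
  have : (0 : ℝ) ≤ (m : ℝ) + 1 := by positivity
  split_ifs <;> linarith

lemma zz_neg (m : ℕ) (c : Fin m → ℤ) : zz m (-c) = zz m c := by
  unfold zz
  refine Finset.sum_congr rfl fun i _ => ?_
  have h1 : (-c = Pi.single i 1) ↔ c = -Pi.single i 1 := neg_eq_iff_eq_neg
  have h2 : (-c = -Pi.single i 1) ↔ c = Pi.single i 1 := neg_inj
  rw [if_congr h1 rfl rfl, if_congr h2 rfl rfl, add_comm]

lemma hasSum_zz (m : ℕ) (g : (Fin m → ℤ) → ℝ) : HasSum (fun c => zz m c * g c)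
    (∑ i, (((m : ℝ) + 1) * g (Pi.single i 1) + ((m : ℝ) + 1) * g (-Pi.single i 1))) := by
  have h1 : ∀ c, zz m c * g c = ∑ i, ((if c = Pi.single i 1 then
      ((m : ℝ) + 1) * g (Pi.single i 1) else 0) +
      (if c = -Pi.single i 1 then ((m : ℝ) + 1) * g (-Pi.single i 1) else 0)) := by
    intro c
    unfold zz
    rw [Finset.sum_mul]
    refine Finset.sum_congr rfl fun i _ => ?_
    rw [add_mul, ite_mul, ite_mul, zero_mul]
    congr 1
    · by_cases h : c = Pi.single i 1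
      · rw [if_pos h, if_pos h, h]
      · rw [if_neg h, if_neg h]
    · by_cases h : c = -Pi.single i 1
      · rw [if_pos h, if_pos h, h]
      · rw [if_neg h, if_neg h]
  simp only [h1]
  exact hasSum_sum fun i _ => (hasSum_ite_eq _ _).add (hasSum_ite_eq _ _)

lemma summable_zz (m : ℕ) : Summable (zz m) := by
  have := (hasSum_zz m (fun _ => 1)).summable
  simpa using this

lemma G_zz (m : ℕ) (t : Fin m → ℝ) :
    G (zz m) t = 4 * ((m : ℝ) + 1) * ∑ i, (1 - cos (2 * π * t i)) := by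
  unfold G
  rw [(hasSum_zz m _).tsum_eq]
  have h1 : ∀ i : Fin m, ∑ j, (((Pi.single i 1 : Fin m → ℤ) j : ℤ) : ℝ) * t j = t i := by
    intro i
    rw [Finset.sum_eq_single i]
    · simp
    · intro j _ hj
      rw [Pi.single_eq_of_ne hj]
      simp
    · intro h
      exact absurd (Finset.mem_univ i) h
  have h2 : ∀ i : Fin m, ∑ j, (((-Pi.single i 1 : Fin m → ℤ) j : ℤ) : ℝ) * t j = -t i := by
    intro i
    rw [← h1 i, ← Finset.sum_neg_distrib]
    refine Finset.sum_congr rfl fun j _ => ?_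
    rw [Pi.neg_apply]
    push_cast
    ring
  rw [Finset.mul_sum, Finset.mul_sum]
  refine Finset.sum_congr rfl fun i _ => ?_
  rw [h1, h2, mul_neg, cos_neg]
  ring

lemma cos_round (τ : ℝ) : cos (2 * π * τ) = cos (2 * π * (τ - round τ)) := by
  have h : 2 * π * (τ - round τ) = 2 * π * τ - (round τ : ℤ) * (2 * π) := by ring
  rw [h, cos_sub_int_mul_two_pi]

lemma one_sub_cos_ge (τ : ℝ) : 8 * (τ - round τ) ^ 2 ≤ 1 - cos (2 * π * τ) := by
  rw [cos_round]
  have h1 : |τ - round τ| ≤ 1 / 2 := abs_sub_round τ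
  have hπ := pi_pos
  have h2 : |2 * π * (τ - round τ)| ≤ π := by
    rw [abs_mul, abs_of_pos (by positivity)]
    nlinarith
  have h3 := cos_le_one_sub_mul_cos_sq h2
  have h4 : 2 / π ^ 2 * (2 * π * (τ - round τ)) ^ 2 = 8 * (τ - round τ) ^ 2 := by
    field_simp
    ring
  linarith

lemma one_sub_cos_le (y : ℝ) : 1 - cos y ≤ y ^ 2 / 2 := by
  have := one_sub_sq_div_two_le_cos (x := y)
  linarith

lemma norm_vec (m : ℕ) (t : Fin m → ℝ) : ‖vec t‖ ^ 2 = (∑ i, t i) ^ 2 + ∑ i, t i ^ 2 := by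
  rw [EuclideanSpace.norm_sq_eq, Fin.sum_univ_succ]
  have h0 : (vec t) 0 = -∑ i, t i := rfl
  have h1 : ∀ i : Fin m, (vec t) i.succ = t i := fun i => rfl
  rw [h0]
  simp only [h1, Real.norm_eq_abs, sq_abs]
  ring

lemma norm_vec_le (m : ℕ) (t : Fin m → ℝ) : ‖vec t‖ ^ 2 ≤ ((m : ℝ) + 1) * ∑ i, t i ^ 2 := by
  rw [norm_vec]
  have h := sq_sum_le_card_mul_sum_sq (s := (Finset.univ : Finset (Fin m))) (f := t)
  rw [Finset.card_univ, Fintype.card_fin] at h
  linarith

lemma vec_sub (m : ℕ) (s t : Fin m → ℝ) : vec s - vec t = vec (s - t) := by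
  ext i
  refine Fin.cases ?_ (fun i => ?_) i
  · change -∑ i, s i - -∑ i, t i = -∑ i, (s - t) i
    simp only [Pi.sub_apply, Finset.sum_sub_distrib]
    ring
  · rfl

lemma vec_mem (m : ℕ) (k : Fin m → ℤ) : vec (fun i => (k i : ℝ)) ∈ LL m := by
  refine ⟨Fin.cons (-∑ i, k i) k, fun i => ?_, ?_⟩
  · refine Fin.cases ?_ (fun i => ?_) i
    · change -∑ i, (k i : ℝ) = ((-∑ i, k i : ℤ) : ℝ)
      push_cast
      rfl
    · rfl
  · rw [Fin.sum_cons]
    simp

lemma isClosed_LL (m : ℕ) : IsClosed (LL m) := by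
  have hr : IsClosed (Set.range ((↑) : ℤ → ℝ)) := Int.isClosedEmbedding_coe_real.isClosed_range
  have h1 : LL m = (⋂ i : Fin (m + 1), {v : E (m + 1) | v i ∈ Set.range ((↑) : ℤ → ℝ)}) ∩
      {v : E (m + 1) | (∑ i, v i) / ((m : ℝ) + 1) ∈ Set.range ((↑) : ℤ → ℝ)} := by
    ext v
    simp only [Set.mem_inter_iff, Set.mem_iInter]
    constructor
    · rintro ⟨k, hk, d, hd⟩
      refine ⟨fun i => ⟨k i, (hk i).symm⟩, ⟨d, ?_⟩⟩
      have hm : ((m : ℝ) + 1) ≠ 0 := by positivity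
      rw [eq_div_iff hm]
      simp only [hk]
      have h2 := congrArg (fun z : ℤ => (z : ℝ)) hd
      beta_reduce at h2
      push_cast at h2
      rw [h2]
      ring
    · rintro ⟨h2, d, hd⟩
      choose k hk using h2
      refine ⟨k, fun i => (hk i).symm, d, ?_⟩
      have hm : ((m : ℝ) + 1) ≠ 0 := by positivity
      rw [eq_div_iff hm] at hd
      simp only [← hk] at hd
      have h3 : (((∑ i, k i : ℤ)) : ℝ) = ((((m : ℤ) + 1) * d : ℤ) : ℝ) := by
        push_cast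
        rw [← hd]
        ring
      exact_mod_cast h3
  rw [h1]
  refine IsClosed.inter (isClosed_iInter fun i => ?_) ?_
  · exact hr.preimage (f := fun v : E (m + 1) => v i) (by fun_prop)
  · exact hr.preimage (f := fun v : E (m + 1) => (∑ i, v i) / ((m : ℝ) + 1)) (by fun_prop)

lemma zero_mem_LL (m : ℕ) : (0 : E (m + 1)) ∈ LL m :=
  ⟨fun _ => 0, fun i => by simp, by simp⟩

lemma F_sub {n : ℕ} {L : Set (E n)} (w : Weight L) (x v : E n) (hv : v ∈ L) :
    w.F (x - v) = w.F x := by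
  unfold Weight.F
  congr 1
  refine tsum_congr fun u => ?_
  obtain ⟨k, hk⟩ := u.2 v hv
  have h : 2 * π * inner ℝ (u : E n) (x - v) = 2 * π * inner ℝ (u : E n) x - (k : ℤ) * (2 * π) := by
    rw [inner_sub_right, hk]
    ring
  rw [h, cos_sub_int_mul_two_pi]

/-- bounds for the coordinates -/
lemma coord (m : ℕ) (x : E (m + 1)) :
    ∑ i, (tc x i) ^ 2 ≤ ‖x‖ ^ 2 ∧ ((m : ℝ) + 1) * mean x ^ 2 ≤ ‖x‖ ^ 2 := by
  have hx : ‖x‖ ^ 2 = ∑ i, x i ^ 2 := by
    rw [EuclideanSpace.norm_sq_eq]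
    simp only [Real.norm_eq_abs, sq_abs]
  have hm : (0 : ℝ) < (m : ℝ) + 1 := by positivity
  have hmean : ∑ i, x i = ((m : ℝ) + 1) * mean x := by
    unfold mean
    field_simp
  have h1 : ∑ i, (x i - mean x) ^ 2 = ∑ i, x i ^ 2 - ((m : ℝ) + 1) * mean x ^ 2 := by
    have h2 : ∀ i, (x i - mean x) ^ 2 = x i ^ 2 - 2 * mean x * x i + mean x ^ 2 := fun i => by ring
    simp only [h2, Finset.sum_add_distrib, Finset.sum_sub_distrib, ← Finset.mul_sum, hmean,
      Finset.sum_const, Finset.card_univ, Fintype.card_fin, nsmul_eq_mul]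
    push_cast
    ring
  have h3 : ∑ i, (tc x i) ^ 2 ≤ ∑ i, (x i - mean x) ^ 2 := by
    rw [Fin.sum_univ_succ (fun i => (x i - mean x) ^ 2)]
    have h4 : ∑ i, (tc x i) ^ 2 = ∑ i : Fin m, (x i.succ - mean x) ^ 2 := rfl
    have h5 : 0 ≤ (x 0 - mean x) ^ 2 := sq_nonneg _
    linarith
  have h6 : 0 ≤ ((m : ℝ) + 1) * mean x ^ 2 := by positivity
  have h7 : 0 ≤ ∑ i, (x i - mean x) ^ 2 := Finset.sum_nonneg fun i _ => sq_nonneg _
  constructor
  · linarith
  · linarith

theorem t_FIN (h1 : S_DIST) (h2 : S_WT) (h3 : S_PYTH) : S_FIN := by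
  intro m
  obtain ⟨w, hw⟩ := h2 m (zz m) 1 (zz_nonneg m) (summable_zz m) (zz_neg m) zero_le_one
  have hm : (0 : ℝ) < (m : ℝ) + 1 := by positivity
  have hπ := pi_pos
  obtain ⟨K, hK⟩ : ∃ K : ℝ, K = 8 * π ^ 2 * ((m : ℝ) + 1) + 20 * π ^ 2 := ⟨_, rfl⟩
  have hK0 : 0 < K := by rw [hK]; positivity
  -- lower bound
  have hlow : ∀ x, Metric.infDist x (LL m) ^ 2 ≤ w.F x := by
    intro x
    rw [h3 m x, hw x, G_zz]
    have e1 : Metric.infDist (vec (tc x)) (LL m) ^ 2 ≤
        4 * ((m : ℝ) + 1) * ∑ i, (1 - cos (2 * π * tc x i)) := by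
      have e2 : Metric.infDist (vec (tc x)) (LL m) ≤
          ‖vec (fun i => tc x i - round (tc x i))‖ := by
        refine (Metric.infDist_le_dist_of_mem (vec_mem m fun i => round (tc x i))).trans ?_
        rw [dist_eq_norm, vec_sub]
        exact le_rfl
      have e3 := pow_le_pow_left₀ Metric.infDist_nonneg e2 2
      refine e3.trans ((norm_vec_le m _).trans ?_)
      have e4 : ∑ i, (tc x i - round (tc x i)) ^ 2 ≤ ∑ i, (1 - cos (2 * π * tc x i)) := by
        refine Finset.sum_le_sum fun i _ => ?_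
        have := one_sub_cos_ge (tc x i)
        have := sq_nonneg (tc x i - round (tc x i))
        linarith
      have e5 : 0 ≤ ∑ i, (tc x i - round (tc x i)) ^ 2 :=
        Finset.sum_nonneg fun i _ => sq_nonneg _
      nlinarith
    have e6 : ((m : ℝ) + 1) * (mean x - round (mean x)) ^ 2 ≤
        ((m : ℝ) + 1) * fone 1 (mean x) := by
      refine mul_le_mul_of_nonneg_left ?_ hm.le
      unfold fone
      have e7 := one_sub_cos_ge (mean x)
      have e8 := cos_le_one (6 * π * mean x)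
      have e9 := sq_nonneg (mean x - round (mean x))
      linarith
    linarith
  -- upper bound by the norm
  have hup : ∀ x, w.F x ≤ K * ‖x‖ ^ 2 := by
    intro x
    rw [hw x, G_zz]
    obtain ⟨c1, c2⟩ := coord m x
    have e1 : ∑ i, (1 - cos (2 * π * tc x i)) ≤ 2 * π ^ 2 * ∑ i, (tc x i) ^ 2 := by
      rw [Finset.mul_sum]
      refine Finset.sum_le_sum fun i _ => ?_
      have := one_sub_cos_le (2 * π * tc x i)
      nlinarith
    have e2 : fone 1 (mean x) ≤ 20 * π ^ 2 * mean x ^ 2 := by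
      unfold fone
      have := one_sub_cos_le (2 * π * mean x)
      have := one_sub_cos_le (6 * π * mean x)
      nlinarith
    have e3 : 4 * ((m : ℝ) + 1) * ∑ i, (1 - cos (2 * π * tc x i)) ≤
        8 * π ^ 2 * ((m : ℝ) + 1) * ‖x‖ ^ 2 := by
      have e4 : ∑ i, (1 - cos (2 * π * tc x i)) ≤ 2 * π ^ 2 * ‖x‖ ^ 2 :=
        e1.trans (mul_le_mul_of_nonneg_left c1 (by positivity))
      have e5 := mul_le_mul_of_nonneg_left e4 (by positivity : (0 : ℝ) ≤ 4 * ((m : ℝ) + 1))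
      linarith
    have e6 : ((m : ℝ) + 1) * fone 1 (mean x) ≤ 20 * π ^ 2 * ‖x‖ ^ 2 := by
      have e7 := mul_le_mul_of_nonneg_left e2 hm.le
      have e8 := mul_le_mul_of_nonneg_left c2 (by positivity : (0 : ℝ) ≤ 20 * π ^ 2)
      linarith
    rw [hK]
    linarith
  have hup2 : ∀ x, w.F x ≤ K * Metric.infDist x (LL m) ^ 2 := by
    intro x
    have hF0 : 0 ≤ w.F x := (sq_nonneg _).trans (hlow x)
    have e1 : √(w.F x / K) ≤ Metric.infDist x (LL m) := by
      refine (Metric.le_infDist ⟨0, zero_mem_LL m⟩).2 fun v hv => ?_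
      rw [dist_eq_norm]
      refine Real.sqrt_le_iff.2 ⟨norm_nonneg _, ?_⟩
      rw [div_le_iff₀ hK0, ← F_sub w x v hv]
      refine (hup (x - v)).trans (le_of_eq (mul_comm _ _))
    have e2 := pow_le_pow_left₀ (Real.sqrt_nonneg _) e1 2
    rw [Real.sq_sqrt (by positivity), div_le_iff₀ hK0] at e2
    linarith
  obtain ⟨hinj, hdist⟩ := h1 (m + 1) (LL m) w K hK0.le (isClosed_LL m) ⟨0, zero_mem_LL m⟩
    fun x => ⟨hlow x, hup2 x⟩
  have hle : c2 (LL m) ≤ distortion (LL m) w.phi := by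
    unfold c2
    refine iInf_le_of_le (lp (fun _ : dual (LL m) => ℂ) 2) ?_
    refine iInf_le_of_le inferInstance ?_
    refine iInf_le_of_le inferInstance ?_
    refine iInf_le_of_le inferInstance ?_
    refine iInf_le_of_le w.phi ?_
    exact iInf_le_of_le hinj le_rfl
  exact ne_top_of_le_ne_top ENNReal.ofReal_ne_top (hle.trans hdist)

end Pool.Agent.R422TE
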